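import Pool.Agent.Helper53.CTR.Defs
import Pool.Agent.Helper1.TE.Mach

/-!
# Call trees in nondeterministic logarithmic space: the algorithm
-/

namespace Pool.Agent.Helper53.CTR

open Pool.Agent.Helper1.TE (Gad app Ch cif)
open Finset

/-! ### Gadgets -/

section
variable {Z : Type}

/-- Shift by all elements of a list. -/
def shl (g : Gad Z) (l : List ℕ) (z : Z) : Z := l.foldl (fun z a => g.sh a z) z

/-- The properties of a gadget whose items are read six times: `un p` undoes `hd p` and six shifts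
by `p`; `sound6`: only if all six guesses are right. -/
structure OK6 (g : Gad Z) : Prop where
  K_pos : 1 ≤ g.K
  hd_V : ∀ p < g.K, ∀ z, g.V z → g.V (g.hd p z)
  sh_V : ∀ p < g.K, ∀ z, g.V z → g.V (g.sh p z)
  un_V : ∀ p < g.K, ∀ z z', g.V z → g.un p z = some z' → g.V z'
  ok6 : ∀ p < g.K, ∀ z, g.V z → g.un p (shl g (List.replicate 6 p) (g.hd p z)) = some z
  sound6 : ∀ p < g.K, ∀ l : List ℕ, l.length = 6 → (∀ a ∈ l, a < g.K) → ∀ z, g.V z →
    (g.un p (shl g l (g.hd p z))).isSome → ∀ a ∈ l, a = p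
  one_le : 1 ≤ g.G
  st_hd : ∀ p < g.K, ∀ z, g.V z → g.st (g.hd p z) < g.G * (g.st z + 1)
  st_sh : ∀ p z, g.st (g.sh p z) = g.st z
  st_un : ∀ p z z', g.un p z = some z' → g.st z' = g.st z / g.G

end

/-! ### Descriptors

A descriptor is `(k, e, f, v, i, T)`. The kind `k` is `0` for a recursive visit (of the block root or
the node `v`; the transformation with the code `T` is applied to the register `i` with the result),
and otherwise it is an elementary step:
`0` (with no digits left) leaf; `1` nothing; `2` apply `T` to the register `i` with the top argument;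
`3` read the register `e` once and apply `T` to `i`; `4` read `e` once and `f` three times and
apply `T` with the table entry to `i`; `5` push an argument; `6` test the top argument, read
`e` and `f` six times and apply `T` with the table entry to `i`; `7` pop an argument.
The registers are `0, …, 2 q` (along a block), `2 q + 1, 2 q + 2` (results of block roots);
`2 q + 3` stands for the stack of arguments. -/

/-- Descriptors. -/
abbrev De := ℕ × ℕ × ℕ × ℕ × ℕ × ℕ

/-- Kind. -/
def De.k (x : De) : ℕ := x.1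
/-- First register which is read. -/
def De.e (x : De) : ℕ := x.2.1
/-- Second register which is read. -/
def De.f (x : De) : ℕ := x.2.2.1
/-- Node. -/
def De.v (x : De) : ℕ := x.2.2.2.1
/-- Register which is changed. -/
def De.i (x : De) : ℕ := x.2.2.2.2.1
/-- Transformation: `0` test, `1` hide, `2` undo. -/
def De.T (x : De) : ℕ := x.2.2.2.2.2

/-- Nothing. -/
def idle : De := (1, 0, 0, 0, 0, 0)

/-- The visit of the node `v`. -/
def nod (v i T : ℕ) : De := (0, 0, 0, v, i, T)

/-- Phase `d` of the visit of a block root. -/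
def phV (v i T d : ℕ) : De :=
  cif d (2, 0, 0, 0, 0, 1) (cif (d - 1) (nod v i T) (cif (d - 2) (2, 0, 0, 0, 0, 2) idle))

/-- Phase `d` of the visit of a node at the bottom of a block; `p` is the parity of the block. -/
def phB (q p v i T d : ℕ) : De :=
  cif d (5, 0, 0, 0, 2 * q + 3, 1)
  (cif (d - 1) (nod (2 * v) (2 * q + 1 + p) 1)
  (cif (d - 2) (6, 2 * q, 2 * q + 1 + p, v, i, T)
  (cif (d - 3) (nod (2 * v) (2 * q + 1 + p) 2)
  (cif (d - 4) (7, 0, 0, 0, 2 * q + 3, 2) idle))))

/-- Phase `d` of the visit of an inner node of a block; its argument is in the register `e`. -/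
def phK (e v i T d : ℕ) : De :=
  cif d (3, e, 0, 0, e + 2, 1)
  (cif (d - 1) (nod (2 * v) (e + 1) 1)
  (cif (d - 2) (3, e, 0, 0, e + 2, 2)
  (cif (d - 3) (4, e, e + 1, v, e + 2, 1)
  (cif (d - 4) (nod (2 * v + 1) i T)
  (cif (d - 5) (4, e, e + 1, v, e + 2, 2)
  (cif (d - 6) (3, e, 0, 0, e + 2, 1)
  (cif (d - 7) (nod (2 * v) (e + 1) 2)
  (3, e, 0, 0, e + 2, 2))))))))

/-- Phase `d` of `x`, if `n` digits of the time are left after `d`. -/
def sub (q : ℕ) (x : De) (n d : ℕ) : De :=
  cif x.k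
    (cif (q + 1 - n % (q + 2)) (phV x.v x.i x.T d)
      (cif (n % (q + 2)) (phB q (n / (q + 2) % 2) x.v x.i x.T d)
        (phK (2 * (q - n % (q + 2))) x.v x.i x.T d)))
    (cif d x idle)

/-! ### Steps -/

section
variable {Z : Type}

/-- The elementary step `x` with the guesses `a, y` on the registers `s.1` and the stack of
arguments `s.2` (a number in base `2 ^ c`). -/
def exec (g : Gad Z) (tst : ℕ → ℕ) (r : ℕ → ℕ → ℕ → ℕ) (c : ℕ) (x : De) (a y : ℕ)
    (s : (ℕ → Z) × ℕ) : Option ((ℕ → Z) × ℕ) :=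
  if x.k = 0 then
    (app g tst x.T (r x.v (s.2 % 2 ^ c) 0) (s.1 x.i)).map fun z =>
      (Function.update s.1 x.i z, s.2)
  else if x.k = 1 then some s
  else if x.k = 2 then
    (app g tst x.T (s.2 % 2 ^ c) (s.1 x.i)).map fun z => (Function.update s.1 x.i z, s.2)
  else if x.k = 3 then
    (app g tst x.T a (s.1 x.i)).map fun z =>
      (Function.update (Function.update s.1 x.e (g.sh a (s.1 x.e))) x.i z, s.2)
  else if x.k = 4 then
    (app g tst x.T (r x.v a y) (s.1 x.i)).map fun z =>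
      (Function.update (Function.update (Function.update s.1 x.e (g.sh a (s.1 x.e)))
        x.f (shl g (List.replicate 3 y) (s.1 x.f))) x.i z, s.2)
  else if x.k = 5 then some (s.1, s.2 * 2 ^ c + a % 2 ^ c)
  else if x.k = 6 then
    (if a % 2 ^ c = s.2 % 2 ^ c then
      (app g tst x.T (r x.v a y) (s.1 x.i)).map fun z =>
        (Function.update (Function.update (Function.update s.1
          x.e (shl g (List.replicate 6 a) (s.1 x.e)))
          x.f (shl g (List.replicate 6 y) (s.1 x.f))) x.i z, s.2)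
    else none)
  else some (s.1, s.2 / 2 ^ c)

/-- The step at the time `τ < 9 ^ n` of `x` with the guesses `a, y`. -/
def op (g : Gad Z) (tst : ℕ → ℕ) (r : ℕ → ℕ → ℕ → ℕ) (q c : ℕ) :
    (x : De) → (n τ a y : ℕ) → (ℕ → Z) × ℕ → Option ((ℕ → Z) × ℕ)
  | x, 0, _, a, y, s => exec g tst r c x a y s
  | x, n + 1, τ, a, y, s => op g tst r q c (sub q x n (τ / 9 ^ n)) n (τ % 9 ^ n) a y s

/-- Complete runs of `x` with `n` digits. -/
def Run (g : Gad Z) (tst : ℕ → ℕ) (r : ℕ → ℕ → ℕ → ℕ) (q c : ℕ) (x : De) (n : ℕ)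
    (s s' : (ℕ → Z) × ℕ) : Prop :=
  Ch (op g tst r q c x n) g.K (9 ^ n) s s'

/-- The result of a node at the bottom of a block, if `g` blocks are below. -/
def botV (r : ℕ → ℕ → ℕ → ℕ) (q c g : ℕ) (w y : ℕ) : ℕ := r w y (blk r q c g (2 * w) (y % 2 ^ c))

end

/-! ### Depths -/

/-- The elementary step at the time `τ` of `x` with `n` digits. -/
def des (q : ℕ) : (x : De) → (n τ : ℕ) → De
  | x, 0, _ => x
  | x, n + 1, τ => des q (sub q x n (τ / 9 ^ n)) n (τ % 9 ^ n)

/-- The effect of `x` on the number of the hidden items in the register `j`. -/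
def eff (x : De) (j : ℕ) : ℤ :=
  if j = x.i then (if x.T = 1 then 1 else if x.T = 2 then -1 else 0) else 0

/-- The number of the items hidden in `j` before the time `τ` of `x` (minus the number at the
beginning). -/
def dep (q : ℕ) : (x : De) → (n τ j : ℕ) → ℤ
  | _, 0, _, _ => 0
  | x, n + 1, τ, j => (∑ d ∈ range (τ / 9 ^ n), eff (sub q x n d) j) +
      dep q (sub q x n (τ / 9 ^ n)) n (τ % 9 ^ n) j

/-- Well formed descriptors; `V` is a bound for the node. -/
structure WF (q V : ℕ) (x : De) : Prop where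
  hk : x.k ≤ 7
  he : x.e ≤ 2 * q + 2
  hf : x.f ≤ 2 * q + 2
  hv : x.v < V
  hT : x.T ≤ 2
  hef : x.k = 4 ∨ x.k = 6 → x.e ≠ x.f
  h1 : x.k = 1 → x.T = 0
  hi : (x.k = 5 ∧ x.i = 2 * q + 3 ∧ x.T = 1) ∨ (x.k = 7 ∧ x.i = 2 * q + 3 ∧ x.T = 2) ∨
    (x.k ≠ 5 ∧ x.k ≠ 7 ∧ x.i ≤ 2 * q + 2)

/-- The descriptor of the whole algorithm. -/
def root (h q : ℕ) : De := nod 1 (2 * q + 1 + h % 2) 0

/-- The descriptor after the first `t` of the `n` digits of `τ`. -/
def dec (q : ℕ) (x : De) (n τ : ℕ) : ℕ → De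
  | 0 => x
  | t + 1 => sub q (dec q x n τ t) (n - 1 - t) (τ / 9 ^ (n - 1 - t) % 9)

/-! ### Statements of the induction -/

section
variable {Z : Type} (g : Gad Z) (tst : ℕ → ℕ) (r : ℕ → ℕ → ℕ → ℕ) (q c : ℕ)

/-- Visits of block roots with `m` blocks below: exact. -/
def VX (m : ℕ) : Prop := ∀ (v T : ℕ) (C : ℕ → Z) (A : ℕ) (s' : (ℕ → Z) × ℕ), (∀ j, g.V (C j)) →
  (Run g tst r q c (nod v (2 * q + 1 + m % 2) T) ((q + 2) * m) (C, A) s' ↔
    ∃ z, app g tst T (blk r q c m v (A % 2 ^ c)) (C (2 * q + 1 + m % 2)) = some z ∧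
      s' = (Function.update C (2 * q + 1 + m % 2) z, A))

/-- Visits of nodes at height `u` in a block with `m` blocks below: every complete run reads the
argument six times, and if it is read correctly then the visit is exact. -/
def KX (m u : ℕ) : Prop := ∀ (v i T : ℕ) (C : ℕ → Z) (A : ℕ) (s' : (ℕ → Z) × ℕ),
  (∀ j, g.V (C j)) → (i < 2 * (q - u) ∨ i = 2 * q + 1 + (m + 1) % 2) →
  Run g tst r q c (nod v i T) ((q + 2) * m + u + 1) (C, A) s' →
    s'.2 = A ∧ (∀ j, g.V (s'.1 j)) ∧ (∀ j < 2 * (q - u), j ≠ i → s'.1 j = C j) ∧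
    ∃ l : List ℕ, l.length = 6 ∧ (∀ a ∈ l, a < g.K) ∧
      s'.1 (2 * (q - u)) = shl g l (C (2 * (q - u))) ∧
      ∀ x < g.K, (∀ a ∈ l, a = x) → ∃ z,
        app g tst T (seg r (botV r q c m) u v x) (C i) = some z ∧
        s'.1 = Function.update (Function.update C i z) (2 * (q - u))
          (shl g l (C (2 * (q - u))))

/-- Visits of nodes at height `u` in a block with `m` blocks below: the right run exists. -/
def KC (m u : ℕ) : Prop := ∀ (v i T : ℕ) (C : ℕ → Z) (A x : ℕ) (z : Z),
  (∀ j, g.V (C j)) → (i < 2 * (q - u) ∨ i = 2 * q + 1 + (m + 1) % 2) → x < g.K →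
  app g tst T (seg r (botV r q c m) u v x) (C i) = some z →
  Run g tst r q c (nod v i T) ((q + 2) * m + u + 1) (C, A)
    (Function.update (Function.update C i z) (2 * (q - u))
      (shl g (List.replicate 6 x) (C (2 * (q - u)))), A)

end

end Pool.Agent.Helper53.CTR
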