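import Pool.Agent.Helper53.CTR.Goals

/-!
# PROJECT CTR: assembly of the algorithm
-/

namespace Pool.Agent.Helper53.CTR

theorem algOK_of (hB : Blocks) (hE : Elem) (hKB : GoalKB) (hKX : GoalKX) (hKC : GoalKC)
    (hVX : GoalVX) : AlgOK := by
  intro Z g hg tst r q c hr hc m
  induction m with
  | zero => exact (hVX hB hE g hg tst r q c hr hc).1
  | succ m ih =>
    have h0 := hKB hB hE g hg tst r q c m hr hc ih
    have hu : ∀ u ≤ q, KX g tst r q c m u ∧ KC g tst r q c m u := by
      intro u
      induction u with
      | zero => intro _; exact h0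
      | succ u ihu =>
        intro hu
        have h := ihu (by omega)
        exact ⟨hKX hB hE g hg tst r q c m u hr hc (by omega) h.1,
          hKC hB hE g hg tst r q c m u hr hc (by omega) h.2⟩
    exact (hVX hB hE g hg tst r q c hr hc).2 m (hu q le_rfl).1 (hu q le_rfl).2

end Pool.Agent.Helper53.CTR
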