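import Pool.Agent.Helper53.CTR.Mach
import Pool.Agent.Helper1.TE.Goals3

/-!
# PROJECT CTR (MP_8b4d68_lc): goals

Deliver `Pool/Agent/<Seat>/CTR/XX.lean` with `theorem gXX : GoalXX` (namespace
`Pool.Agent.<Seat>.CTR`). Other goals that are needed are hypotheses of the statement. Everything of
project TE may be used (`Pool/Agent/Helper1/TE/All.lean` names all its packets).
-/

namespace Pool.Agent.Helper53.CTR

open Pool.Agent.Helper1.TE (Gad app Ch cif ctab bitc seed wN vN addm NumMach codeB word CodeOK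
  sym XCtl xTM xtp XP Body Round GoalT2A GoalXBODY GoalXPR GoalDT GoalCO GoalCL GoalCD GoalCE
  GoalCSD GoalCT GoalLSD GoalLCT GoalLCF NTM GoalCHS)
open Pool.Agent.Helper65.LinSpace (dig tab nrec ifz eq01 le01 lt01 capPow Ctx LS)
open Finset

/-! ### A. The algorithm -/

/-- RUN (blocks). First for any step function: `Ch step K (m * t) s s'` iff there is
`f : ℕ → S` with `f 0 = s`, `f m = s'` and `Ch (fun τ => step (d * t + τ)) K t (f d) (f (d+1))` for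
all `d < m` (induction on `m`, `GoalCHS`); then `9 ^ (n+1) = 9 * 9 ^ n` and for `τ < 9 ^ n`:
`(d * 9 ^ n + τ) / 9 ^ n = d`, `(d * 9 ^ n + τ) % 9 ^ n = τ`, so the steps of the block `d` are those
of `sub q x n d` (`ch_congr_iff` of `Helper44/TE/Chain.lean`). -/
def GoalRUN : Prop := GoalCHS → ∀ {Z : Type} (g : Gad Z) (tst : ℕ → ℕ) (r : ℕ → ℕ → ℕ → ℕ)
  (q c : ℕ) (x : De) (n : ℕ) (s s' : (ℕ → Z) × ℕ),
  Run g tst r q c x (n + 1) s s' ↔ ∃ f : ℕ → (ℕ → Z) × ℕ, f 0 = s ∧ f 9 = s' ∧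
    ∀ d < 9, Run g tst r q c (sub q x n d) n (f d) (f (d + 1))

/-- The conclusion of RUN. -/
def Blocks : Prop := ∀ {Z : Type} (g : Gad Z) (tst : ℕ → ℕ) (r : ℕ → ℕ → ℕ → ℕ)
  (q c : ℕ) (x : De) (n : ℕ) (s s' : (ℕ → Z) × ℕ),
  Run g tst r q c x (n + 1) s s' ↔ ∃ f : ℕ → (ℕ → Z) × ℕ, f 0 = s ∧ f 9 = s' ∧
    ∀ d < 9, Run g tst r q c (sub q x n d) n (f d) (f (d + 1))

/-- ELE (elementary steps) and the values of `sub`. First part: `n = 0` is one step (`Ch`);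
for kinds `≠ 0` by induction on `n` with `Blocks`: `sub q x n 0 = x`, `sub q x n d = idle` for
`d ≥ 1`, and `Run idle n s s' ↔ s' = s` (`1 ≤ K`, also by this induction). -/
def GoalELE : Prop := Blocks →
  (∀ {Z : Type} (g : Gad Z) (tst : ℕ → ℕ) (r : ℕ → ℕ → ℕ → ℕ) (q c : ℕ) (x : De) (n : ℕ)
    (s s' : (ℕ → Z) × ℕ), 1 ≤ g.K → (n = 0 ∨ x.k ≠ 0) →
    (Run g tst r q c x n s s' ↔ ∃ a < g.K, ∃ y < g.K, exec g tst r c x a y s = some s')) ∧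
  (∀ q m u v i T d : ℕ, u < q →
    sub q (nod v i T) ((q + 2) * m + (u + 1)) d = phK (2 * (q - (u + 1))) v i T d) ∧
  (∀ q m v i T d : ℕ, sub q (nod v i T) ((q + 2) * m) d = phB q (m % 2) v i T d) ∧
  (∀ q m v i T d : ℕ, sub q (nod v i T) ((q + 2) * m + (q + 1)) d = phV v i T d)

/-- The conclusion of ELE. -/
def Elem : Prop :=
  (∀ {Z : Type} (g : Gad Z) (tst : ℕ → ℕ) (r : ℕ → ℕ → ℕ → ℕ) (q c : ℕ) (x : De) (n : ℕ)
    (s s' : (ℕ → Z) × ℕ), 1 ≤ g.K → (n = 0 ∨ x.k ≠ 0) →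
    (Run g tst r q c x n s s' ↔ ∃ a < g.K, ∃ y < g.K, exec g tst r c x a y s = some s')) ∧
  (∀ q m u v i T d : ℕ, u < q →
    sub q (nod v i T) ((q + 2) * m + (u + 1)) d = phK (2 * (q - (u + 1))) v i T d) ∧
  (∀ q m v i T d : ℕ, sub q (nod v i T) ((q + 2) * m) d = phB q (m % 2) v i T d) ∧
  (∀ q m v i T d : ℕ, sub q (nod v i T) ((q + 2) * m + (q + 1)) d = phV v i T d)

/-- KB (bottom of a block). `e = 2 q`, `B = 2 q + 1 + m % 2`. The five phases: push a number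
`t < 2 ^ c` (any: `a % 2 ^ c`; `(A * 2 ^ c + t) % 2 ^ c = t`); the visit of the block root `2 v`
hides `y₀ = blk m (2 v) t` in the register `B` (VX; `i ≠ B`, because `i < 2 q` or
`i = 2 q + 1 + (m + 1) % 2`); the test step with guesses `a, y`: `a % 2 ^ c = t`, six reads of `e` by
`a` and of `B` by `y`, and `T` is applied to `i` with `r v a y`; the visit of `2 v` with `T = 2`
(VX: `un y₀ (shl (replicate 6 y) (hd y₀ z))` is defined, so `y = y₀` by `sound6`, and the register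
`B` gets `z` back by `ok6`); pop. So all complete runs are exact with `l = replicate 6 a`:
`botV r q c m v a = r v a y₀` with `t = a % 2 ^ c`. For KC take `a = x`, `y = y₀`. Phases 5 to 8
are `idle`. -/
def GoalKB : Prop := Blocks → Elem → ∀ {Z : Type} (g : Gad Z), OK6 g → ∀ (tst : ℕ → ℕ)
  (r : ℕ → ℕ → ℕ → ℕ) (q c m : ℕ), (∀ v x y, r v x y < g.K) → 2 ^ c ≤ g.K →
  VX g tst r q c m → KX g tst r q c m 0 ∧ KC g tst r q c m 0

/-- KX (frame and exactness, one level up). Let `e = 2 (q - (u+1))`, so `e + 2 = 2 (q - u)`. States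
`f 0, …, f 9` of Blocks. The phases are: 0 guess `a₀`: read `e`, hide `a₀` in `e + 2`; 1 visit of
`2 v`, which hides in `e + 1` (frame: the registers `≤ e` and `i` — for `i < e` — unchanged,
`e + 2` gets six reads `l₁`); 2 guess `a₂`: read `e`, undo `a₂` in `e + 2`; 3 guesses `a₃, y`: read `e`
once by `a₃`, `e + 1` three times by `y`, hide `r v a₃ y` in `e + 2`; 4 visit of `2 v + 1` with `T`
and `i`; 5 guesses `a₅, y'`: read `e` by `a₅`, `e + 1` three times by `y'`, undo `r v a₅ y'` in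
`e + 2`; 6 guess `a₆`: read `e`, hide `a₆` in `e + 2`; 7 visit of `2 v` which undoes in `e + 1`;
8 guess `a₈`: read `e`, undo `a₈` in `e + 2`. FRAME (for all guesses): the stack of arguments is
unchanged, all contents stay valid (all values are `< K`: `app` with `hd`, `un` or test), registers
`< e` other than `i` are unchanged, and `e` is read by `l = [a₀, a₂, a₃, a₅, a₆, a₈]`
(`shl g [a] z = g.sh a z`, `List.foldl_append`). EXACTNESS, if all of `l` are `x`: phase 2 is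
possible, so `un x (shl l₁ (hd x z₂))` is defined, `sound6`: all of `l₁` are `x`, so phase 1 is exact
(IH): `e + 1` contains `hd y₀ z₁`, `y₀ = seg u (2v) x`, and phase 2 gives `z₂` back (`ok6`; a list
of length 6 with all elements `x` is `replicate 6 x`). In the same way phase 8: the reads `l₇` of
`e + 2` in phase 7 are all `x`, so phase 7 is exact: `un y₀` of
`shl (replicate 3 y ++ replicate 3 y') (hd y₀ z₁)` is defined (`e + 1` is not changed in phase 4: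
`e + 1 < e + 2`, `e + 1 ≠ i`), so `y = y' = y₀` by `sound6` and `e + 1` gets `z₁` back. So the item
hidden in phase 3 and undone in phase 5 is `p = r v x y₀` in both cases: `sound6` for the reads `l₄`
of phase 4: all are `p`, so phase 4 is exact: it applies `T` with
`seg u (2v+1) (r v x y₀) = seg (u+1) v x` to `i`, and `e + 2` gets `z₂` back. The register `i` is
different from `e, e+1, e+2` and is not changed in the other phases: if `i < e` by the frame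
of phases 1, 7; if `i = 2q+1+(m+1)%2` by their exactness. (`r _ _ _ < K`.) -/
def GoalKX : Prop := Blocks → Elem → ∀ {Z : Type} (g : Gad Z), OK6 g → ∀ (tst : ℕ → ℕ)
  (r : ℕ → ℕ → ℕ → ℕ) (q c m u : ℕ), (∀ v x y, r v x y < g.K) → 2 ^ c ≤ g.K → u < q →
  KX g tst r q c m u → KX g tst r q c m (u + 1)

/-- KC (completeness, one level up). Phases as in KX, all guesses right: `x`, `y₀ = seg u (2v) x`,
`p = r v x y₀`; the states `f d` are given explicitly (updates of `C`): with `KC m u` for the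
phases 1 (`T = 1`, `hd` is always defined), 4 (`T`, `i`), 7 (`T = 2`, `un y₀` of
`shl (replicate 6 y₀) (hd y₀ z₁)` is `z₁`: `ok6`), and `ok6` for the phases 2, 5, 8. All contents
are valid. `seg, blk < K` (prove first: `r < K`). -/
def GoalKC : Prop := Blocks → Elem → ∀ {Z : Type} (g : Gad Z), OK6 g → ∀ (tst : ℕ → ℕ)
  (r : ℕ → ℕ → ℕ → ℕ) (q c m u : ℕ), (∀ v x y, r v x y < g.K) → 2 ^ c ≤ g.K → u < q →
  KC g tst r q c m u → KC g tst r q c m (u + 1)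

/-- VX (block roots). `VX 0`: Elem with `n = 0`: the leaf step (no guesses are needed). `VX (m+1)`:
`(q + 2) * (m + 1) = (q + 2) * m + (q + 1) + 1`; phase 0 hides `x = A % 2 ^ c` in the register `0`,
phase 1 is the visit with `u = q` (`2 (q - q) = 0` is its argument register;
`i = 2q+1+(m+1)%2`), phase 2 undoes `x` in the register `0`. From left to right: the frame of KX
gives the reads `l` of the register `0`; phase 2 is possible, so all are `x` (`sound6`), so phase 1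
is exact, and the register `0` gets its content back (`ok6`). From right to left: KC. Phases 3 to 8
are idle. (`blk (m+1) v x = seg r (botV r q c m) q v x` by definition.) -/
def GoalVX : Prop := Blocks → Elem → ∀ {Z : Type} (g : Gad Z), OK6 g → ∀ (tst : ℕ → ℕ)
  (r : ℕ → ℕ → ℕ → ℕ) (q c : ℕ), (∀ v x y, r v x y < g.K) → 2 ^ c ≤ g.K →
  VX g tst r q c 0 ∧ ∀ m, KX g tst r q c m q → KC g tst r q c m q → VX g tst r q c (m + 1)

/-- The algorithm is correct. -/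
def AlgOK : Prop := ∀ {Z : Type} (g : Gad Z), OK6 g → ∀ (tst : ℕ → ℕ)
  (r : ℕ → ℕ → ℕ → ℕ) (q c : ℕ), (∀ v x y, r v x y < g.K) → 2 ^ c ≤ g.K → ∀ m,
  VX g tst r q c m

/-! ### B. Depths -/

/-- EFF. For `x.k ≠ 0`: `sub q x n 0 = x`, the others `idle` (effect `0`). For `x.k = 0` the three
cases of `sub`; in each of them the effects of the nine phases add up to the effect of `x`
(`phK`: `+1` and `-1` for `e + 2` three times, `+1` and `-1` for `e + 1`, and the effect of `x`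
in phase 4). `Finset.sum_range_succ`, unfold, `split_ifs`, `omega`. -/
def GoalEFF : Prop := ∀ (q : ℕ) (x : De) (n j : ℕ),
  ∑ d ∈ range 9, eff (sub q x n d) j = eff x j

/-- DST (one step). Induction on `n`. `n = 0`: `τ = 0`, `dep = 0`, `des = x`. `n + 1`: let
`d = τ / 9 ^ n`, `t = τ % 9 ^ n`. If `t + 1 < 9 ^ n` then `τ + 1` has the same `d`. Otherwise
`τ + 1 = (d + 1) * 9 ^ n`, and `dep` of the time `0` is `0` (first prove this), so IH (second part)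
gives the claim for `d < 8`, and with EFF for `d = 8`. -/
def GoalDST : Prop := GoalEFF → ∀ (q : ℕ) (x : De) (n τ j : ℕ), τ < 9 ^ n →
  dep q x n 0 j = 0 ∧
  (τ + 1 < 9 ^ n → dep q x n (τ + 1) j = dep q x n τ j + eff (des q x n τ) j) ∧
  (τ + 1 = 9 ^ n → dep q x n τ j + eff (des q x n τ) j = eff x j)

/-- DBD (bounds). First for `x.k ≠ 0`: `dep q x n τ j` is `0` or `eff x j` (induction on `n`). Then
for `x = nod v i T`, `T ≤ 2`, write `[P]` for `1` if `P` and `0` otherwise. Claim V(m):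
for `τ < 9 ^ ((q+2) m)` and `i = 2q+1+m%2`: `-[j = i, T = 2] ≤ dep ≤ m + 1`; claim K(m,u), `u ≤ q`,
`e = 2 (q - u)`, `n = (q+2) m + u + 1`, `i < e` or `i = 2q+1+(m+1)%2`: `-[j = i, T = 2] ≤ dep`, and
`dep ≤ m + 1 + [T = 1]` for `j = i`, `dep ≤ m + 1` for `j ≠ i` if `j ≤ e` or
`j = 2q+1+(m+1)%2`, and `dep ≤ m + 2` for all other `j`. Induction: V(0): `dep = 0`. K(m,0) from V(m),
K(m,u+1) from K(m,u), V(m+1) from K(m,q). In each case `dep` is the sum of the effects of the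
complete phases `< d = τ / 9 ^ n'` (nine explicit values) and of `dep` of the phase `d` (IH or
elementary); `omega` after `interval_cases`. The root has `T = 0`. -/
def GoalDBD : Prop := ∀ (q h τ j : ℕ), τ < 9 ^ Nt h q →
  0 ≤ dep q (root h q) (Nt h q) τ j ∧ dep q (root h q) (Nt h q) τ j ≤ h + 1

/-- WFD. `sub` preserves `WF` (cases), the root has `WF q 2`; then by induction. -/
def GoalWFD : Prop := (∀ (q V : ℕ) (x : De) (n d : ℕ), WF q V x → d < 9 →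
    WF q (2 * V) (sub q x n d)) ∧
  (∀ (q V : ℕ) (x : De) (n τ t : ℕ), WF q V x → t ≤ n → WF q (2 ^ t * V) (dec q x n τ t)) ∧
  ∀ h q : ℕ, WF q 2 (root h q)

/-- DES. `op` is `exec` of `des` (induction on `n`); `dec` after all digits is `des`: by induction
on `t ≤ n`: `des q (dec q x n τ t) (n - t) (τ % 9 ^ (n - t)) = des q x n τ`, because
`(τ % 9 ^ (k+1)) / 9 ^ k = τ / 9 ^ k % 9`, `τ % 9 ^ (k+1) % 9 ^ k = τ % 9 ^ k`. -/
def GoalDES : Prop := (∀ {Z : Type} (g : Gad Z) (tst : ℕ → ℕ) (r : ℕ → ℕ → ℕ → ℕ)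
    (q c : ℕ) (x : De) (n τ a y : ℕ) (s : (ℕ → Z) × ℕ),
    op g tst r q c x n τ a y s = exec g tst r c (des q x n τ) a y s) ∧
  ∀ (q : ℕ) (x : De) (n τ : ℕ), τ < 9 ^ n → dec q x n τ n = des q x n τ

/-- DI (bounds along chains). Let `δ j = dep q (root h q) N τ j`, `N = Nt h q`. By induction on `τ`:
all contents are valid, `st (C j) < G ^ (δ j).toNat` for `j ≤ 2q+2`, and
`A < (2 ^ c) ^ ((δ (2q+3)).toNat + 1)`. Step: DES (`op` is `exec` of `des`), WFD: the kinds `5, 7` have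
`i = 2q+3` and do not change the registers, the others change `st` only at `i ≤ 2q+2`, by `hd` if
`T = 1` (`st_hd`), `un` if `T = 2` (`st_un`; `δ i ≥ 1` by DBD for `τ + 1` and DST, or
`δ i = 0` and then `st = 0`), nothing if `T = 0`; DST: `δ` changes by `eff`. (`st_sh`: reads
do not change `st`.) The values are `< K` because `r < K`, `a, y < K`, `2 ^ c ≤ K`. Finally DBD. -/
def GoalDI : Prop := GoalDST → GoalEFF → GoalDBD → GoalWFD → GoalDES → ∀ {Z : Type} (g : Gad Z),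
  OK6 g → ∀ (tst : ℕ → ℕ) (r : ℕ → ℕ → ℕ → ℕ) (q c h τ A : ℕ) (C0 C : ℕ → Z),
  (∀ v x y, r v x y < g.K) → 2 ^ c ≤ g.K → (∀ j, g.V (C0 j) ∧ g.st (C0 j) = 0) →
  τ < 9 ^ Nt h q → Ch (op g tst r q c (root h q) (Nt h q)) g.K τ (C0, 0) (C, A) →
  (∀ j, g.V (C j)) ∧ (∀ j ≤ 2 * q + 2, g.st (C j) < g.G ^ (h + 1)) ∧ A < 2 ^ (c * (h + 2))

/-! ### C. The gadget -/

/-- SHN. `z.1 < P ^ (m+2)`, `P = L + R`: `tab_dig`. `al = 0`: the digits of `X` are `< P`. Step: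
`shN 1 p (shN al p X) = shN (al+1) p X`: digits `((d + al v) % P + v) % P` (`dig_tab`). -/
def GoalSHN : Prop := ∀ (c : ℕ → ℕ → ℕ) (m L R K : ℕ), 1 ≤ R → ∀ (al p : ℕ) (z : ℕ × ℕ),
  z.1 < (L + R) ^ (m + 2) →
  shl (gad6 c m L R K) (List.replicate al p) z = (shN c m L R al p z.1, z.2)

/-- GA6 (`ok6`). As `Pool.Agent.Helper53.TE.gGA` (`P = L + R`, `G = P / R + 1`, `w = wN p X < P`): with
`X' = addm X (R * (w / R))`: `wN p X' = w % R < R`; `ush6 p (shN 6 p X') = X'` (digits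
`((d + 6 v) % P + 6 (P - v)) % P = d`, `v = vN p i ≤ L < P`); and `addm X' (P - R * s) = X`,
`(G S + s) % G = s`, `(G S + s) / G = S`. -/
def GoalGA6 : Prop := GoalSHN → ∀ (c : ℕ → ℕ → ℕ) (m L R K : ℕ), CodeOK c m L R K →
  ∀ p < K, ∀ z : ℕ × ℕ, (gad6 c m (6 * L) R K).V z →
    (gad6 c m (6 * L) R K).un p (shl (gad6 c m (6 * L) R K) (List.replicate 6 p)
      ((gad6 c m (6 * L) R K).hd p z)) = some z

/-- GC6 (`sound6`). As `Pool.Agent.Helper89.TE.gGC`. Let `X = (hd p z).1`, so `wN p X < R`. Modulo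
`P = 6 L + R`: `wN p (ush6 p (shl l X)) ≡ wN p X + ∑_{a ∈ l} W(v_a) - 6 W(v_p)`, where
`W(v_a) = 6 L - dst p a`, `W(v_p) = 6 L`. So it is `≡ wN p X - ∑_{a ∈ l} dst p a`, and if some
`a ∈ l` is not `p` then the sum is between `R` and `6 L`, and the residue is in `[R, P - 1]`. -/
def GoalGC6 : Prop := ∀ (c : ℕ → ℕ → ℕ) (m L R K : ℕ), CodeOK c m L R K →
  ∀ p < K, ∀ l : List ℕ, l.length = 6 → (∀ a ∈ l, a < K) → ∀ z : ℕ × ℕ,
    (gad6 c m (6 * L) R K).V z →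
    ((gad6 c m (6 * L) R K).un p (shl (gad6 c m (6 * L) R K) l
      ((gad6 c m (6 * L) R K).hd p z))).isSome → ∀ a ∈ l, a = p

/-- The gadget of the machine. -/
def gadC (b W : ℕ) : Gad (ℕ × ℕ) := gad6 (cC b W) (4 * b) (24 * b) (Rb b) (2 ^ b)

/-- EOK. Assembly of `OK6` (as `Pool.Agent.Helper1.TE.gGD`, file `Helper1/TE/GD.lean`) for
`CodeOK c m L R K`, `1 ≤ K`; the code: `GoalCO` with `s = 1` and `a = seed b W` (`GoalCSD`):
`sym 1 b a = bitc b a`, `(4 b + 1 - 1) / 1 = 4 b`, `4 b * (2 ^ 1 - 1) ^ 2 = 4 b`,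
`(b + 4 - 1) / 4 = Rb b`; `6 * (4 * b) = 24 * b`. -/
def GoalEOK : Prop := GoalCO → GoalCL → GoalCD → GoalCE → GoalCSD → GoalSHN → GoalGA6 →
  GoalGC6 → ∀ b W : ℕ, 1 ≤ b → 2 ^ (3 * b) ≤ W →
  OK6 (gadC b W) ∧ CodeOK (cC b W) (4 * b) (4 * b) (Rb b) (2 ^ b)

/-- PB (parameters). `1 ≤ Rb b ≤ b`, `Pb b ≤ 25 b`, `P ^ m < 2 ^ (m (log P + 1))`
(`Nat.lt_pow_succ_log_self`), `9 < 2 ^ 4`. -/
def GoalPB : Prop := ∀ h q b c : ℕ, 1 ≤ h → 1 ≤ q → 1 ≤ b → c ≤ b →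
  1 ≤ Rb b ∧ Pb b ^ (4 * b + 2) ≤ 2 ^ Eb b ∧ Gb b ^ (h + 1) ≤ 2 ^ Fb h b ∧
  (2 ^ Eb b) ^ (2 * q + 3) ≤ 2 ^ Et h q b c ∧ (2 ^ Fb h b) ^ (2 * q + 3) ≤ 2 ^ Et h q b c ∧
  2 ^ Eb b ≤ 2 ^ Et h q b c ∧ 2 ^ Fb h b ≤ 2 ^ Et h q b c ∧ 2 ^ (3 * b) ≤ 2 ^ Et h q b c ∧
  4 ^ b ≤ 2 ^ Et h q b c ∧ 2 ^ b ≤ 2 ^ Et h q b c ∧ 9 ^ Nt h q ≤ 2 ^ Et h q b c ∧
  2 ^ (Nt h q + 1) ≤ 2 ^ Et h q b c ∧ 2 ^ (c * (h + 2)) ≤ 2 ^ Et h q b c ∧
  Pb b ^ (4 * b + 2) ≤ 2 ^ Et h q b c ∧ 2 * q + 3 < 2 ^ Et h q b c ∧ h < 2 ^ Et h q b c ∧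
  b < 2 ^ Et h q b c ∧ c < 2 ^ Et h q b c ∧ 8 < 2 ^ Et h q b c

/-! ### D. The numeric step -/

/-- Registers of two arrays. -/
def toF (h b X S j : ℕ) : ℕ × ℕ := (dig (2 ^ Eb b) X j, dig (2 ^ Fb h b) S j)

/-- EC. `GoalCT` for `shC, ushC, addC` (digits are `< Pb b`: `Nat.mod_lt`, `dig_lt`; `1 ≤ Rb b`);
`shC b W al = shN ... al`; `wC` is `wN`; unfold `app`, `gad6`. `v < 2 ^ b` is not needed. -/
def GoalEC : Prop := GoalCT → ∀ b W : ℕ, 1 ≤ Rb b → Pb b ^ (4 * b + 2) ≤ W →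
  (∀ al p X, shC b W al p X = shN (cC b W) (4 * b) (24 * b) (Rb b) al p X) ∧
  ∀ T v : ℕ, ∀ z : ℕ × ℕ, app (gadC b W) (fun v => eq01 v 1) T v z =
    if apT b W T v z.1 = 0 then none else some (apX b W T v z.1 z.2, apS b W T v z.1 z.2)

/-- SET. `capPow 2 e W = 2 ^ e`; `GoalCT`, `dig_tab`; for `i ≥ m` both sides are `0` (a number
`< (2 ^ e) ^ m` has the digits `0` there, and `j < m`). -/
def GoalSET : Prop := GoalCT → ∀ W e m X j y : ℕ, (2 ^ e) ^ m ≤ W → 2 ^ e ≤ W → X < (2 ^ e) ^ m →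
  j < m → y < 2 ^ e →
  setD W e m X j y < (2 ^ e) ^ m ∧ (∀ i, dig (2 ^ e) (setD W e m X j y) i =
    if i = j then y else dig (2 ^ e) X i) ∧ ∀ i, getD W e X i = dig (2 ^ e) X i

/-- EE (the numeric step is the abstract step). For the kinds `1, 5, 7`: `actK = 0`. For the others
`bigR` has the digits of the contents after the reads: SET twice (`x.e, x.f ≤ 2q+2`;
`alK = 0` or `beK = 0`: `shC 0 X = X` for `X < P ^ (4b+2)`, from SHN with `al = 0`; for the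
kinds `4, 6`: `x.e ≠ x.f`; for the kind `3`, `beK = 0`), and the third `setD` gives the register
`i`. The new digits are `< 2 ^ Eb`: they are valid contents (`< P ^ (4b+2)`) by hypothesis on `C'`
(and `shN < P ^ (4b+2)`). EC for `app`. `shl` of a replicate list: SHN. -/
def GoalEE : Prop := GoalCT → GoalSHN → GoalEC → GoalSET → GoalPB →
  ∀ (r : ℕ → ℕ → ℕ → ℕ) (h q b c V a y t X S A : ℕ) (D : De),
    1 ≤ h → 1 ≤ q → 1 ≤ b → c ≤ b → WF q V D → X < (2 ^ Eb b) ^ (2 * q + 3) →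
    S < (2 ^ Fb h b) ^ (2 * q + 3) → (∀ j, dig (2 ^ Eb b) X j < Pb b ^ (4 * b + 2)) →
    (D.k = 0 → t = r D.v (A % 2 ^ c) 0) → (D.k = 4 ∨ D.k = 6 → t = r D.v a y) →
    (bigT b c (2 ^ Et h q b c) D a t X A = 0 →
      exec (gadC b (2 ^ Et h q b c)) (fun v => eq01 v 1) r c D a y (toF h b X S, A) = none) ∧
    (bigT b c (2 ^ Et h q b c) D a t X A ≠ 0 → ∃ C',
      exec (gadC b (2 ^ Et h q b c)) (fun v => eq01 v 1) r c D a y (toF h b X S, A) =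
        some (C', bigA c (2 ^ Et h q b c) D a A) ∧
      ((∀ j ≤ 2 * q + 2, (C' j).1 < Pb b ^ (4 * b + 2) ∧ (C' j).2 < 2 ^ Fb h b) →
        toF h b (bigX h q b c (2 ^ Et h q b c) D a y t X S A)
          (bigS h q b c (2 ^ Et h q b c) D a t X S A) = C' ∧
        bigX h q b c (2 ^ Et h q b c) D a y t X S A < (2 ^ Eb b) ^ (2 * q + 3) ∧
        bigS h q b c (2 ^ Et h q b c) D a t X S A < (2 ^ Fb h b) ^ (2 * q + 3)))

/-! ### E. The machine -/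

/-- `n` ones from the place `s`. -/
def Ones (w : List Bool) (s n : ℕ) : Prop := ∀ i < n, w[s + i]? = some true

/-- The word starts with `1^h 0 1^q 0 1^b 0 1^c`. -/
def P3 (w : List Bool) (h q b c : ℕ) : Prop :=
  Ones w 0 h ∧ w[h]? = some false ∧ Ones w (h + 1) q ∧ w[h + 1 + q]? = some false ∧
    Ones w (h + q + 2) b ∧ w[h + q + 2 + b]? = some false ∧ Ones w (h + q + b + 3) c

/-- The header is complete and has good parameters. -/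
def Hd (ok : ℕ → ℕ → ℕ → ℕ → ℕ) (w : List Bool) (h q b c : ℕ) : Prop :=
  P3 w h q b c ∧ w[h + q + b + 3 + c]? = some false ∧ 1 ≤ h ∧ 1 ≤ q ∧ 1 ≤ b ∧ c ≤ b ∧
    ok h q b c ≠ 0

/-- Also the word is long enough. -/
def Full (ok : ℕ → ℕ → ℕ → ℕ → ℕ) (w : List Bool) (h q b c : ℕ) : Prop :=
  Hd ok w h q b c ∧ 2 ^ (h * q) < w.length

/-- The data. -/
def dat (w : List Bool) (h q b c : ℕ) : List Bool := w.drop (h + q + b + c + 4)

/-- The steps of the algorithm on the data of `w`. -/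
def opM (w : List Bool) (h q b c : ℕ) :
    ℕ → ℕ → ℕ → (ℕ → ℕ × ℕ) × ℕ → Option ((ℕ → ℕ × ℕ) × ℕ) :=
  op (gadC b (2 ^ Et h q b c)) (fun v => eq01 v 1) (tabV b (dat w h q b c)) q c
    (root h q) (Nt h q)

/-- The language of the machine. -/
def LangM (ok : ℕ → ℕ → ℕ → ℕ → ℕ) : Set (List Bool) :=
  {w | ∃ h q b c, Full ok w h q b c ∧ rootV h q b c (dat w h q b c) = 1}

/-- The invariant of the machine. -/
inductive Inv (ok : ℕ → ℕ → ℕ → ℕ → ℕ) (w : List Bool) : Sta → Prop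
  | rej : Inv ok w rejS
  | m0 (h : ℕ) (h1 : Ones w 0 h) : Inv ok w (hdr 0 h 0 0 0 0 0)
  | m1 (h q : ℕ) (h1 : Ones w 0 h) (h2 : w[h]? = some false) (h3 : Ones w (h + 1) q) :
      Inv ok w (hdr 1 h q 0 0 0 0)
  | m2 (h q b : ℕ) (h1 : Ones w 0 h) (h2 : w[h]? = some false) (h3 : Ones w (h + 1) q)
      (h4 : w[h + 1 + q]? = some false) (h5 : Ones w (h + q + 2) b) :
      Inv ok w (hdr 2 h q b 0 0 0)
  | m3 (h q b c : ℕ) (h1 : P3 w h q b c) : Inv ok w (hdr 3 h q b c 0 0)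
  | m4 (h q b c u : ℕ) (h1 : Hd ok w h q b c) (hu : u ≤ h * q) (h2 : ∀ t < u, 2 ^ t < w.length) :
      Inv ok w (hdr 4 h q b c u (2 ^ u))
  | m5 (h q b c u : ℕ) (h1 : Full ok w h q b c) (hu : u ≤ Et h q b c) :
      Inv ok w (hdr 5 h q b c u (2 ^ u))
  | m6 (h q b c u τ g t : ℕ) (D : De) (X S A : ℕ) (h1 : Full ok w h q b c)
      (hτ : τ < 9 ^ Nt h q) (hu : u ≤ Nt h q + 3 * b)
      (hg : g < 2 ^ min (u - Nt h q) (2 * b))
      (hD : D = dec q (root h q) (Nt h q) τ (min u (Nt h q)))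
      (ht : t = word (dat w h q b c) (blkM b c (2 ^ Et h q b c) D A g * b)
        (u - (Nt h q + 2 * b)))
      (hX : X < (2 ^ Eb b) ^ (2 * q + 3)) (hS : S < (2 ^ Fb h b) ^ (2 * q + 3))
      (hC : Ch (opM w h q b c) (2 ^ b) τ (fun _ => (0, 0), 0) (toF h b X S, A)) :
      Inv ok w (mainS h q b c u (2 ^ Et h q b c) τ g t D X S A)
  | m7 (h1 : w ∈ LangM ok) : Inv ok w accS

/-- FI0. Modes 0 to 5, 7, 8. Unfold `nextM`, `addrM`, `codeB` case by case (as in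
`Helper54/TE/FI0.lean`). Mode 3: `h * q * b * le01 c b * ok ≠ 0`. Mode 4: the letter at `2 ^ u`
exists iff `2 ^ u < w.length`. Mode 5 to 6: `u = 0`, `Ch.zero`, `toF h b 0 0 = fun _ => (0, 0)`
(`dig q 0 j = 0`), `word _ _ 0 = 0`, `dec … 0 = root`. -/
def GoalFI0 : Prop := ∀ (ok : ℕ → ℕ → ℕ → ℕ → ℕ) (w : List Bool) (x : Sta) (γ : ℕ), γ < 2 →
  Inv ok w x → x.mo ≠ 6 → Inv ok w ((machM ok).nx w x γ)

/-- Correctness of the numeric step on the data of a word (conclusion of STP). Here `D` is the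
descriptor of the step and `t` the entry of the table which is read. -/
def StepOK : Prop := ∀ (ok : ℕ → ℕ → ℕ → ℕ → ℕ) (w : List Bool) (h q b c τ g X S A : ℕ),
  Full ok w h q b c → τ < 9 ^ Nt h q → g < 4 ^ b → X < (2 ^ Eb b) ^ (2 * q + 3) →
  S < (2 ^ Fb h b) ^ (2 * q + 3) →
  Ch (opM w h q b c) (2 ^ b) τ (fun _ => (0, 0), 0) (toF h b X S, A) →
  ∀ (D : De) (t : ℕ), D = dec q (root h q) (Nt h q) τ (Nt h q) →
  t = word (dat w h q b c) (blkM b c (2 ^ Et h q b c) D A g * b) b →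
  (bigT b c (2 ^ Et h q b c) D (g / 2 ^ b) t X A = 0 →
    opM w h q b c τ (g / 2 ^ b) (g % 2 ^ b) (toF h b X S, A) = none) ∧
  (bigT b c (2 ^ Et h q b c) D (g / 2 ^ b) t X A ≠ 0 → ∃ s',
    opM w h q b c τ (g / 2 ^ b) (g % 2 ^ b) (toF h b X S, A) = some s' ∧
    Ch (opM w h q b c) (2 ^ b) (τ + 1) (fun _ => (0, 0), 0) s' ∧
    (τ + 1 < 9 ^ Nt h q →
      s' = (toF h b (bigX h q b c (2 ^ Et h q b c) D (g / 2 ^ b) (g % 2 ^ b) t X S A)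
        (bigS h q b c (2 ^ Et h q b c) D (g / 2 ^ b) t X S A), bigA c (2 ^ Et h q b c) D (g / 2 ^ b) A) ∧
      bigX h q b c (2 ^ Et h q b c) D (g / 2 ^ b) (g % 2 ^ b) t X S A <
        (2 ^ Eb b) ^ (2 * q + 3) ∧
      bigS h q b c (2 ^ Et h q b c) D (g / 2 ^ b) t X S A < (2 ^ Fb h b) ^ (2 * q + 3)))

/-- STP. DES: `opM` at `τ` is `exec` of `D`; WFD: `WF q (2 ^ (N+1)) D`. `g / 2 ^ b, g % 2 ^ b < 2 ^ b`,
`2 ^ b * (g / 2 ^ b) + g % 2 ^ b = g`, so `t` is `tabV _ D.v a y` if `D.k ≠ 0` and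
`tabV _ D.v (A % 2 ^ c) 0` if `D.k = 0` (PB: `capPow` is not cut off). EE; the contents of the old
and of the new state are valid and their stacks are `< G ^ (h+1) ≤ 2 ^ Fb` by DI (for `τ` and for
`τ + 1 < 9 ^ N`). `gadC` has `OK6` (hypothesis), `K = 2 ^ b`, `G = Gb b`; `word … b < 2 ^ b`;
`2 ^ c ≤ 2 ^ b`. -/
def GoalSTP : Prop := GoalPB → GoalWFD → GoalDES →
  (∀ b W : ℕ, 1 ≤ b → 2 ^ (3 * b) ≤ W → OK6 (gadC b W)) →
  -- the conclusion of DI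
  (∀ {Z : Type} (g : Gad Z), OK6 g → ∀ (tst : ℕ → ℕ) (r : ℕ → ℕ → ℕ → ℕ) (q c h τ A : ℕ)
    (C0 C : ℕ → Z), (∀ v x y, r v x y < g.K) → 2 ^ c ≤ g.K →
    (∀ j, g.V (C0 j) ∧ g.st (C0 j) = 0) → τ < 9 ^ Nt h q →
    Ch (op g tst r q c (root h q) (Nt h q)) g.K τ (C0, 0) (C, A) →
    (∀ j, g.V (C j)) ∧ (∀ j ≤ 2 * q + 2, g.st (C j) < g.G ^ (h + 1)) ∧ A < 2 ^ (c * (h + 2))) →
  -- the conclusion of EE
  (∀ (r : ℕ → ℕ → ℕ → ℕ) (h q b c V a y t X S A : ℕ) (D : De),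
    1 ≤ h → 1 ≤ q → 1 ≤ b → c ≤ b → WF q V D → X < (2 ^ Eb b) ^ (2 * q + 3) →
    S < (2 ^ Fb h b) ^ (2 * q + 3) → (∀ j, dig (2 ^ Eb b) X j < Pb b ^ (4 * b + 2)) →
    (D.k = 0 → t = r D.v (A % 2 ^ c) 0) → (D.k = 4 ∨ D.k = 6 → t = r D.v a y) →
    (bigT b c (2 ^ Et h q b c) D a t X A = 0 →
      exec (gadC b (2 ^ Et h q b c)) (fun v => eq01 v 1) r c D a y (toF h b X S, A) = none) ∧
    (bigT b c (2 ^ Et h q b c) D a t X A ≠ 0 → ∃ C',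
      exec (gadC b (2 ^ Et h q b c)) (fun v => eq01 v 1) r c D a y (toF h b X S, A) =
        some (C', bigA c (2 ^ Et h q b c) D a A) ∧
      ((∀ j ≤ 2 * q + 2, (C' j).1 < Pb b ^ (4 * b + 2) ∧ (C' j).2 < 2 ^ Fb h b) →
        toF h b (bigX h q b c (2 ^ Et h q b c) D a y t X S A)
          (bigS h q b c (2 ^ Et h q b c) D a t X S A) = C' ∧
        bigX h q b c (2 ^ Et h q b c) D a y t X S A < (2 ^ Eb b) ^ (2 * q + 3) ∧
        bigS h q b c (2 ^ Et h q b c) D a t X S A < (2 ^ Fb h b) ^ (2 * q + 3)))) →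
  StepOK

/-- The algorithm accepts exactly the right words (conclusion of ACC). -/
def AccOK : Prop := ∀ (w : List Bool) (h q b c : ℕ), 1 ≤ h → 1 ≤ q → 1 ≤ b → c ≤ b →
  ((∃ s', Ch (opM w h q b c) (2 ^ b) (9 ^ Nt h q) (fun _ => (0, 0), 0) s') ↔
    rootV h q b c (dat w h q b c) = 1)

/-- ACC. `AlgOK` for `VX h` (`Nt h q = (q+2) h` up to `mul_comm`; `root` is `nod 1 (2q+1+h%2) 0`, so
`app` with `T = 0` is the test `eq01 v 1 ≠ 0`); `0 % 2 ^ c = 0`; validity of `(0, 0)`. -/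
def GoalACC : Prop := GoalPB → AlgOK →
  (∀ b W : ℕ, 1 ≤ b → 2 ^ (3 * b) ≤ W → OK6 (gadC b W)) → AccOK

/-- FI6. Mode 6. `u < N`: one more digit (`dig 9 τ k = τ / 9 ^ k % 9`, `min u N = u`). `N ≤ u < N + 2b`:
`2 g + γ < 2 ^ (u + 1 - N)`; `t` is the word of length `0`. `N + 2b ≤ u < N + 3b`: the address is
`h+q+b+c+4 + blkM * b + (u - (N + 2b))`, `y - 1` is the value of the letter (also if there is no
letter), so `t` becomes the word of length `u + 1 - (N + 2b)` (`List.getElem?_drop`, `word`).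
`u = N + 3b`: StepOK; `(τ + 1) / 9 ^ N ≠ 0` iff `τ + 1 = 9 ^ N`, and then AccOK gives
`w ∈ LangM ok`. (As `Helper16/TE/FI7.lean`.) -/
def GoalFI6 : Prop := GoalPB → StepOK → AccOK → ∀ (ok : ℕ → ℕ → ℕ → ℕ → ℕ) (w : List Bool)
  (x : Sta) (γ : ℕ), γ < 2 → Inv ok w x → x.mo = 6 → Inv ok w ((machM ok).nx w x γ)

/-- FC0. The first phases on a well formed input (`γ = 0`): `h + 1`, `q + 1`, `b + 1`, `c + 1` steps for
the header, `h q + 1` steps in mode 4 (`2 ^ t ≤ 2 ^ (h q) < w.length`), `Et + 1` steps in mode 5. -/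
def GoalFC0 : Prop := ∀ (ok : ℕ → ℕ → ℕ → ℕ → ℕ) (w : List Bool) (h q b c : ℕ),
  Full ok w h q b c →
  (machM ok).Reach w (mainS h q b c 0 (2 ^ Et h q b c) 0 0 0 (root h q) 0 0 0)

/-- FC1. From the main state with the time `τ`, with the guesses `a, y < 2 ^ b`: `N` steps which
compute `dec`, `2 b` steps which guess the bits of `g = 2 ^ b * a + y` (most significant first), `b`
steps which read the block, one step with StepOK. -/
def GoalFC1 : Prop := GoalPB → StepOK → ∀ (ok : ℕ → ℕ → ℕ → ℕ → ℕ) (w : List Bool)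
  (h q b c τ a y X S A : ℕ) (s' : (ℕ → ℕ × ℕ) × ℕ), Full ok w h q b c → τ < 9 ^ Nt h q →
  a < 2 ^ b → y < 2 ^ b → X < (2 ^ Eb b) ^ (2 * q + 3) → S < (2 ^ Fb h b) ^ (2 * q + 3) →
  Ch (opM w h q b c) (2 ^ b) τ (fun _ => (0, 0), 0) (toF h b X S, A) →
  (machM ok).Reach w (mainS h q b c 0 (2 ^ Et h q b c) τ 0 0 (root h q) X S A) →
  opM w h q b c τ a y (toF h b X S, A) = some s' →
  (τ + 1 = 9 ^ Nt h q → (machM ok).Reach w accS) ∧
  (τ + 1 < 9 ^ Nt h q → ∃ X' S' A', s' = (toF h b X' S', A') ∧ X' < (2 ^ Eb b) ^ (2 * q + 3) ∧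
    S' < (2 ^ Fb h b) ^ (2 * q + 3) ∧
    (machM ok).Reach w (mainS h q b c 0 (2 ^ Et h q b c) (τ + 1) 0 0 (root h q) X' S' A'))

/-- Conclusion of FC1. -/
def BigStep : Prop := ∀ (ok : ℕ → ℕ → ℕ → ℕ → ℕ) (w : List Bool)
  (h q b c τ a y X S A : ℕ) (s' : (ℕ → ℕ × ℕ) × ℕ), Full ok w h q b c → τ < 9 ^ Nt h q →
  a < 2 ^ b → y < 2 ^ b → X < (2 ^ Eb b) ^ (2 * q + 3) → S < (2 ^ Fb h b) ^ (2 * q + 3) →
  Ch (opM w h q b c) (2 ^ b) τ (fun _ => (0, 0), 0) (toF h b X S, A) →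
  (machM ok).Reach w (mainS h q b c 0 (2 ^ Et h q b c) τ 0 0 (root h q) X S A) →
  opM w h q b c τ a y (toF h b X S, A) = some s' →
  (τ + 1 = 9 ^ Nt h q → (machM ok).Reach w accS) ∧
  (τ + 1 < 9 ^ Nt h q → ∃ X' S' A', s' = (toF h b X' S', A') ∧ X' < (2 ^ Eb b) ^ (2 * q + 3) ∧
    S' < (2 ^ Fb h b) ^ (2 * q + 3) ∧
    (machM ok).Reach w (mainS h q b c 0 (2 ^ Et h q b c) (τ + 1) 0 0 (root h q) X' S' A'))

/-- FCS (soundness and completeness). Soundness: the invariant holds for all reachable states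
(induction; `hdr 0 0 0 0 0 0 0` is `m0 0`), and `acc x ≠ 0` only for `m7`. Completeness: AccOK gives a
chain of length `9 ^ N`; by induction on `t` (the last step of `Ch`): if
`Ch (opM …) (2 ^ b) t (fun _ => (0,0), 0) s` and `t < 9 ^ N` then the main state with the time `t` is
reachable for some `X, S, A` with `s = (toF h b X S, A)` (FC0, `toF h b 0 0 = fun _ => (0,0)`,
BigStep), and for `t = 9 ^ N` the state `accS` is. -/
def GoalFCS : Prop := AccOK → GoalFC0 → BigStep →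
  (∀ (ok : ℕ → ℕ → ℕ → ℕ → ℕ) (w : List Bool) (x : Sta) (γ : ℕ), γ < 2 →
    Inv ok w x → Inv ok w ((machM ok).nx w x γ)) →
  ∀ (ok : ℕ → ℕ → ℕ → ℕ → ℕ) (w : List Bool),
    (∀ x, (machM ok).Reach w x → Inv ok w x) ∧
    ((∃ x, (machM ok).Reach w x ∧ (machM ok).acc x ≠ 0) ↔ w ∈ LangM ok)

/-- FB (bounds). Modes 5, 6: the first case: `u ≤ Et`, `2 ^ u`, `9 ^ N`, `4 ^ b`, …, by PB; `D`: WFD
(`D = dec …`: `WF q (2 ^ (N+1)) D`); `t < 2 ^ b` (`word` of length `≤ b`); `A`: DI. Modes 0 to 4: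
`h, q, b, c ≤ w.length` (`Ones`), `u ≤ w.length`, `2 ^ u ≤ 2 * w.length + 1`; modes 7, 8. 19
coordinates: `Ctx.enc x i` for `i ≥ 19` is `0`. -/
def GoalFB : Prop := GoalPB → GoalWFD →
  (∀ b W : ℕ, 1 ≤ b → 2 ^ (3 * b) ≤ W → OK6 (gadC b W)) →
  -- the conclusion of DI
  (∀ {Z : Type} (g : Gad Z), OK6 g → ∀ (tst : ℕ → ℕ) (r : ℕ → ℕ → ℕ → ℕ) (q c h τ A : ℕ)
    (C0 C : ℕ → Z), (∀ v x y, r v x y < g.K) → 2 ^ c ≤ g.K →
    (∀ j, g.V (C0 j) ∧ g.st (C0 j) = 0) → τ < 9 ^ Nt h q →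
    Ch (op g tst r q c (root h q) (Nt h q)) g.K τ (C0, 0) (C, A) →
    (∀ j, g.V (C j)) ∧ (∀ j ≤ 2 * q + 2, g.st (C j) < g.G ^ (h + 1)) ∧ A < 2 ^ (c * (h + 2))) →
  ∀ (ok : ℕ → ℕ → ℕ → ℕ → ℕ) (w : List Bool) (x : Sta), Inv ok w x →
    (∃ h q b c, Full ok w h q b c ∧ ∀ i, Ctx.enc x i < 2 ^ (Et h q b c + 1)) ∨
    ∀ i, Ctx.enc x i ≤ 2 * w.length + 9

/-! ### F. Linear space functions -/

/-- LN. As `Helper86/TE/LVE.lean`, `Helper22/TE/LPA.lean`. `Rb, Pb, Gb, Eb, Fb, Nt, Et` by `fun_prop`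
after unfolding; `cC` from `GoalLSD` (`bitc`, `seed`); `wN` by `LS.sum_le` (`cC ≤ 1`, or
`bitc` is a remainder modulo 2), `shC, ushC, addC, setD` by `GoalLCT`. -/
def GoalLN : Prop := GoalLSD → GoalLCT →
  LS (fun x : ℕ × ℕ × ℕ × ℕ => Et x.1 x.2.1 x.2.2.1 x.2.2.2) ∧
  LS (fun x : ℕ × ℕ => Fb x.1 x.2) ∧ LS (fun x : ℕ => Eb x) ∧
  LS (fun x : ℕ × ℕ => Nt x.1 x.2) ∧
  LS (fun x : (ℕ × ℕ) × ℕ × ℕ × ℕ => shC x.1.1 x.1.2 x.2.1 x.2.2.1 x.2.2.2) ∧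
  LS (fun x : (ℕ × ℕ) × ℕ × ℕ × ℕ => apT x.1.1 x.1.2 x.2.1 x.2.2.1 x.2.2.2) ∧
  LS (fun x : (ℕ × ℕ) × ℕ × ℕ × ℕ × ℕ => apX x.1.1 x.1.2 x.2.1 x.2.2.1 x.2.2.2.1 x.2.2.2.2) ∧
  LS (fun x : (ℕ × ℕ) × ℕ × ℕ × ℕ × ℕ => apS x.1.1 x.1.2 x.2.1 x.2.2.1 x.2.2.2.1 x.2.2.2.2) ∧
  LS (fun x : (ℕ × ℕ) × ℕ × ℕ × ℕ × ℕ =>
    setD x.1.1 x.1.2 x.2.1 x.2.2.1 x.2.2.2.1 x.2.2.2.2) ∧
  LS (fun x : ℕ × ℕ × ℕ × ℕ => getD x.1 x.2.1 x.2.2.1 x.2.2.2)

/-- LSUB. Nested `cif` (`GoalLCF`); each branch is a tuple of simple functions (`LS.prodMk`). -/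
def GoalLSUB : Prop := GoalLCF →
  LS (fun x : (ℕ × De) × ℕ × ℕ => sub x.1.1 x.1.2 x.2.1 x.2.2) ∧
  LS (fun x : ℕ × ℕ => root x.1 x.2)

/-- The parameters of a step: `(h, q, b, c, W)`, the descriptor, `(a, y, t)`, `(X, S, A)`. -/
abbrev BigIn := (ℕ × ℕ × ℕ × ℕ × ℕ) × De × (ℕ × ℕ × ℕ) × (ℕ × ℕ × ℕ)

/-- LBG. LN and composition. `alK, beK, actK, valK` are nested `ifz`; `A % 2 ^ c`: `LS.modPow`,
`A / 2 ^ c`: `LS.divPow`; `LS.capPow`. The components of `x` are `LS` by `LS.comp LS.fst _` etc. -/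
def GoalLBG : Prop := GoalLN → GoalLSD → GoalLCT →
  LS (fun x : BigIn => bigT x.1.2.2.1 x.1.2.2.2.1 x.1.2.2.2.2 x.2.1 x.2.2.1.1 x.2.2.1.2.2
    x.2.2.2.1 x.2.2.2.2.2) ∧
  LS (fun x : BigIn => bigX x.1.1 x.1.2.1 x.1.2.2.1 x.1.2.2.2.1 x.1.2.2.2.2 x.2.1 x.2.2.1.1
    x.2.2.1.2.1 x.2.2.1.2.2 x.2.2.2.1 x.2.2.2.2.1 x.2.2.2.2.2) ∧
  LS (fun x : BigIn => bigS x.1.1 x.1.2.1 x.1.2.2.1 x.1.2.2.2.1 x.1.2.2.2.2 x.2.1 x.2.2.1.1
    x.2.2.1.2.2 x.2.2.2.1 x.2.2.2.2.1 x.2.2.2.2.2) ∧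
  LS (fun x : BigIn => bigA x.1.2.2.2.1 x.1.2.2.2.2 x.2.1 x.2.2.1.1 x.2.2.2.2.2) ∧
  LS (fun x : BigIn => blkM x.1.2.2.1 x.1.2.2.2.1 x.1.2.2.2.2 x.2.1 x.2.2.2.2.2 x.2.2.1.1)

/-- LNX. `addrM`, `nextM` (nested `cif`: prove `LS` of each branch as a separate `have`, see
`Helper59/TE/LNX.lean`), `(τ + 1) / 9 ^ N`: `LS.divPow`, `g / 2 ^ b`, `g % 2 ^ b`, `LS.dig`. -/
def GoalLNX : Prop := GoalLCF → GoalLN → GoalLSD → GoalLCT → GoalLSUB → GoalLBG →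
  ∀ ok : ℕ → ℕ → ℕ → ℕ → ℕ, LS (fun x : ℕ × ℕ × ℕ × ℕ => ok x.1 x.2.1 x.2.2.1 x.2.2.2) →
    LS (machM ok).addr ∧ LS (fun p : Sta × ℕ × ℕ => (machM ok).next p.1 p.2.1 p.2.2) ∧
    LS (machM ok).acc

/-! ### G. Assembly -/

/-- The compilation theorem. -/
def Compile : Prop := ∀ {α : Type} [Ctx α] (N : NumMach α), LS N.addr →
  LS (fun p : α × ℕ × ℕ => N.next p.1 p.2.1 p.2.2) → LS N.acc → (∀ a, N.acc a ≤ 1) →
  (∀ i, Ctx.enc N.start i = 0) → N.acc N.start = 0 →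
  ∃ (k : ℕ) (M : NTM k) (c : ℕ), ∀ (w : List Bool) (S : ℕ),
    (∀ a, N.Reach w a → ∀ i, Ctx.enc a i < 2 ^ S) →
    (M.Accepts w ↔ ∃ a, N.Reach w a ∧ N.acc a ≠ 0) ∧ M.Within w ((c * (S + 1) : ℕ) : ℝ)

/-- COM. As `Pool.Agent.Helper89.TE.gCOM` without the unambiguity. -/
def GoalCOM : Prop := GoalXPR → GoalXBODY → Round → GoalDT → GoalT2A → Compile

/-- LG. `w = 1^h 0 1^q 0 1^b 0 1^c 0 v` iff `P3`, a zero at `h + q + b + 3 + c`, and
`v = w.drop (h + q + b + c + 4)`. (As `Helper79/TE/LG1.lean`.) -/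
def GoalLG : Prop := ∀ (ok : ℕ → ℕ → ℕ → ℕ → ℕ) (D : Set (ℕ × ℕ × ℕ × ℕ)),
  (∀ h q b c, (h, q, b, c) ∈ D ↔ ok h q b c ≠ 0) → CallTree D = LangM ok

/-- AS (asymptotics). `h q log 2 ≤ log n`. `Pb b ≤ 25 b`, `Gb b ≤ 101`, so
`Eb b ≤ 6 b (log₂ b + 6)`, `Fb h b ≤ 7 (h + 1)`; `b ≤ b log₂ b + 1` and `q b log₂ b ≤ C h q`, so
`b log₂ b ≤ C h`; `2 q + 3 ≤ 5 q`, `h (q + 2) ≤ 3 h q`, `c (h + 2) ≤ 3 h c ≤ 3 C h q`. So
`Et + 1 ≤ (250 C + 400) h q`. -/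
def GoalAS : Prop := (∀ C : ℕ, ∃ K : ℝ, 0 ≤ K ∧ ∀ (ok : ℕ → ℕ → ℕ → ℕ → ℕ) (w : List Bool)
    (h q b c : ℕ), Full ok w h q b c → q * b * Nat.log 2 b + h * c ≤ C * (h * q) →
    ((Et h q b c + 1 : ℕ) : ℝ) ≤ K * (Real.log w.length + 1)) ∧
  ∃ K : ℝ, 0 ≤ K ∧ ∀ n : ℕ, ((Nat.log 2 (n + 1) + 5 : ℕ) : ℝ) ≤ K * (Real.log n + 1)

/-- FIN (the theorem). `ok = le01 (q b log₂ b + h c) (C (h q))`, FCS, FB (`2 n + 9 < 2 ^ (Nat.log 2 (n + 1) + 5)`),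
LG, AS, with `S` the integer part of a bound for both cases of FB. -/
def GoalFIN : Prop := Compile →
  (∀ ok : ℕ → ℕ → ℕ → ℕ → ℕ, LS (fun x : ℕ × ℕ × ℕ × ℕ => ok x.1 x.2.1 x.2.2.1 x.2.2.2) →
    LS (machM ok).addr ∧ LS (fun p : Sta × ℕ × ℕ => (machM ok).next p.1 p.2.1 p.2.2) ∧
    LS (machM ok).acc) →
  (∀ (ok : ℕ → ℕ → ℕ → ℕ → ℕ) (w : List Bool),
    (∀ x, (machM ok).Reach w x → Inv ok w x) ∧
    ((∃ x, (machM ok).Reach w x ∧ (machM ok).acc x ≠ 0) ↔ w ∈ LangM ok)) →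
  (∀ (ok : ℕ → ℕ → ℕ → ℕ → ℕ) (w : List Bool) (x : Sta), Inv ok w x →
    (∃ h q b c, Full ok w h q b c ∧ ∀ i, Ctx.enc x i < 2 ^ (Et h q b c + 1)) ∨
    ∀ i, Ctx.enc x i ≤ 2 * w.length + 9) → GoalLG → GoalAS →
  ∀ C : ℕ, CallTree {x | x.2.1 * x.2.2.1 * Nat.log 2 x.2.2.1 + x.1 * x.2.2.2 ≤
    C * (x.1 * x.2.1)} ∈ NSPACE (fun n => Real.log n)

end Pool.Agent.Helper53.CTR
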