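import Pool.Agent.Helper53.CTR.Goals

/-!
# PROJECT CTR, packets DES, EFF
-/

namespace Pool.Agent.Helper53.CTR

open Pool.Agent.Helper1.TE (Gad app Ch cif)
open Finset

theorem op_eq_exec {Z : Type} (g : Gad Z) (tst : ℕ → ℕ) (r : ℕ → ℕ → ℕ → ℕ) (q c : ℕ) :
    ∀ (n : ℕ) (x : De) (τ a y : ℕ) (s : (ℕ → Z) × ℕ),
    op g tst r q c x n τ a y s = exec g tst r c (des q x n τ) a y s := by
  intro n
  induction n with
  | zero => intro x τ a y s; rfl
  | succ n ih => intro x τ a y s; exact ih _ _ _ _ _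

theorem des_dec (q : ℕ) (n : ℕ) (x : De) (τ : ℕ) (hτ : τ < 9 ^ n) : ∀ t ≤ n,
    des q (dec q x n τ t) (n - t) (τ % 9 ^ (n - t)) = des q x n τ := by
  intro t
  induction t with
  | zero =>
    intro _
    simp only [dec, Nat.sub_zero]
    rw [Nat.mod_eq_of_lt hτ]
  | succ t ih =>
    intro ht
    rw [← ih (by omega)]
    obtain ⟨k, hk⟩ : ∃ k, n - t = k + 1 := ⟨n - t - 1, by omega⟩
    have h1 : n - (t + 1) = k := by omega
    have h2 : n - 1 - t = k := by omega
    rw [hk, h1]
    simp only [des, dec, h2]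
    have h3 : τ % 9 ^ (k + 1) / 9 ^ k = τ / 9 ^ k % 9 := by
      rw [pow_succ, Nat.mod_mul_right_div_self]
    have h4 : τ % 9 ^ (k + 1) % 9 ^ k = τ % 9 ^ k :=
      Nat.mod_mod_of_dvd _ (pow_dvd_pow 9 (by omega))
    rw [h3, h4]

theorem gDES : GoalDES := by
  refine ⟨fun g tst r q c x n τ a y s => op_eq_exec g tst r q c n x τ a y s, ?_⟩
  intro q x n τ hτ
  have := des_dec q n x τ hτ n le_rfl
  simp only [Nat.sub_self, pow_zero, Nat.mod_one] at this
  exact this

theorem gEFF : GoalEFF := by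
  intro q x n j
  obtain ⟨k, e, f, v, i, T⟩ := x
  rcases Nat.eq_zero_or_pos k with hk | hk
  · subst hk
    by_cases h1 : q + 1 - n % (q + 2) = 0
    · simp only [Finset.sum_range_succ, Finset.sum_range_zero, sub, cif, De.k, h1, if_true,
        phV, eff, nod, idle, De.i, De.T, De.v]
      simp
      split_ifs <;> omega
    · by_cases h2 : n % (q + 2) = 0
      · simp only [Finset.sum_range_succ, Finset.sum_range_zero, sub, cif, De.k, h1, h2, if_true,
          if_false, phB, eff, nod, idle, De.i, De.T, De.v]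
        simp
        split_ifs <;> omega
      · simp only [Finset.sum_range_succ, Finset.sum_range_zero, sub, cif, De.k, h1, h2, if_true,
          if_false, phK, eff, nod, idle, De.i, De.T, De.v]
        simp
        split_ifs <;> omega
  · have hk' : k ≠ 0 := by omega
    simp only [Finset.sum_range_succ, Finset.sum_range_zero, sub, cif, De.k, hk', if_false, eff,
      idle, De.i, De.T]
    by_cases h3 : j = i <;> by_cases h1 : T = 1 <;> by_cases h2 : T = 2 <;> simp [h3, h1, h2]

/-! ### SHN -/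

open Pool.Agent.Helper65.LinSpace (dig tab dig_tab tab_dig tab_lt tab_congr dig_lt)

theorem gSHN : GoalSHN := by
  intro c m L R K hR al p z hz
  have hP : 0 < L + R := by omega
  have hlt : ∀ (al X : ℕ), ∀ i < m + 2,
      (dig (L + R) X i + al * Pool.Agent.Helper1.TE.vN c m p i) % (L + R) < L + R :=
    fun _ _ _ _ => Nat.mod_lt _ hP
  induction al with
  | zero =>
    simp only [List.replicate_zero, shl, List.foldl_nil, shN, Nat.zero_mul, Nat.add_zero]
    have : tab (L + R) (m + 2) (fun i => dig (L + R) z.1 i % (L + R)) = z.1 := by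
      rw [tab_congr (d' := dig (L + R) z.1) (fun i _ => Nat.mod_eq_of_lt (dig_lt hP _ _))]
      exact tab_dig _ _ hz
    rw [this]
  | succ al ih =>
    rw [List.replicate_succ']
    have h1 : shl (gad6 c m L R K) (List.replicate al p ++ [p]) z =
        (gad6 c m L R K).sh p (shl (gad6 c m L R K) (List.replicate al p) z) := by
      simp [shl, List.foldl_append]
    rw [h1, ih]
    show (shN c m L R 1 p (shN c m L R al p z.1), z.2) = _
    congr 1
    simp only [shN]
    refine tab_congr fun i hi => ?_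
    rw [dig_tab (hlt al z.1) hi]
    rw [Nat.mod_add_mod]
    congr 1
    ring

/-! ### ACC -/

open Pool.Agent.Helper65.LinSpace (eq01)
open Pool.Agent.Helper1.TE (word)

theorem word_lt (w : List Bool) (i : ℕ) : ∀ b, word w i b < 2 ^ b := by
  intro b
  induction b with
  | zero => simp [word]
  | succ b ih =>
    simp only [word, pow_succ]
    have : ((w.getD (i + b) false).toNat) ≤ 1 := Bool.toNat_le _
    omega

theorem gACC : GoalACC := by
  intro hPB hA hOK w h q b c hh hq hb hc
  have hW : 2 ^ (3 * b) ≤ 2 ^ Et h q b c := (hPB h q b c hh hq hb hc).2.2.2.2.2.2.2.1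
  have hg := hOK b (2 ^ Et h q b c) hb hW
  have hcK : 2 ^ c ≤ (gadC b (2 ^ Et h q b c)).K := Nat.pow_le_pow_right (by norm_num) hc
  have hr : ∀ v x y, tabV b (dat w h q b c) v x y < (gadC b (2 ^ Et h q b c)).K :=
    fun v x y => word_lt _ _ _
  have hP : 0 < 24 * b + Rb b := by omega
  have key := hA (gadC b (2 ^ Et h q b c)) hg (fun v => eq01 v 1) (tabV b (dat w h q b c)) q c hr
    hcK h 1 0 (fun _ => (0, 0)) 0
  have hV : ∀ j : ℕ, (gadC b (2 ^ Et h q b c)).V ((fun _ : ℕ => ((0 : ℕ), (0 : ℕ))) j) := by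
    intro j
    show 0 < (24 * b + Rb b) ^ (4 * b + 2)
    positivity
  have hN : Nt h q = (q + 2) * h := by unfold Nt; ring
  have hrun : ∀ s', Ch (opM w h q b c) (2 ^ b) (9 ^ Nt h q) (fun _ => (0, 0), 0) s' ↔
      Run (gadC b (2 ^ Et h q b c)) (fun v => eq01 v 1) (tabV b (dat w h q b c)) q c
        (nod 1 (2 * q + 1 + h % 2) 0) ((q + 2) * h) (fun _ => (0, 0), 0) s' := by
    intro s'
    unfold opM Run root
    rw [hN]
    rfl
  have hroot : blk (tabV b (dat w h q b c)) q c h 1 (0 % 2 ^ c) =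
      rootV h q b c (dat w h q b c) := by
    rw [Nat.zero_mod]; rfl
  constructor
  · rintro ⟨s', hs'⟩
    obtain ⟨z, hz, -⟩ := (key s' hV).1 ((hrun s').1 hs')
    rw [hroot] at hz
    unfold app at hz
    simp only [if_true] at hz
    by_contra hne
    rw [if_pos (by simp [eq01, hne])] at hz
    exact absurd hz (by simp)
  · intro h1
    refine ⟨(Function.update (fun _ => ((0 : ℕ), (0 : ℕ))) (2 * q + 1 + h % 2) (0, 0), 0), ?_⟩
    rw [hrun]
    refine (key _ hV).2 ⟨(0, 0), ?_, rfl⟩
    rw [hroot, h1]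
    simp [app, eq01]

end Pool.Agent.Helper53.CTR
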