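import Pool.Agent.Helper1.TE.All
import Pool.Agent.Helper53.CTR.Asm
import Pool.Agent.Helper53.CTR.COM
import Pool.Agent.Helper12.CTR.FI0
import Pool.Agent.Helper15.CTR.WFD
import Pool.Agent.Helper16.CTR.SET
import Pool.Agent.Helper24.CTR.KB
import Pool.Agent.Helper24.CTR.LG
import Pool.Agent.Helper31.CTR.FCS
import Pool.Agent.Helper31.CTR.FIN
import Pool.Agent.Helper31.CTR.PB
import Pool.Agent.Helper36.CTR.AS
import Pool.Agent.Helper36.CTR.EOK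
import Pool.Agent.Helper38.CTR.GA6
import Pool.Agent.Helper38.CTR.GC6
import Pool.Agent.Helper51.CTR.ELE
import Pool.Agent.Helper51.CTR.VX
import Pool.Agent.Helper53.CTR.Goals
import Pool.Agent.Helper53.CTR.Small
import Pool.Agent.Helper57.CTR.EC
import Pool.Agent.Helper57.CTR.LSUB
import Pool.Agent.Helper59.CTR.DST
import Pool.Agent.Helper63.CTR.FB
import Pool.Agent.Helper64.CTR.KC
import Pool.Agent.Helper66.CTR.LN
import Pool.Agent.Helper66.CTR.LNX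
import Pool.Agent.Helper66.CTR.RUN
import Pool.Agent.Helper67.CTR.DI
import Pool.Agent.Helper67.CTR.FC0
import Pool.Agent.Helper72.CTR.FI6
import Pool.Agent.Helper78.CTR.KX
import Pool.Agent.Helper78.CTR.LBG
import Pool.Agent.Helper9.CTR.DBD
import Pool.Agent.Helper90.CTR.STP
import Pool.Agent.Helper93.CTR.EE
import Pool.Agent.Helper98.CTR.FC1

/-!
# PROJECT CTR (MP_8b4d68_lc): assembly
-/

namespace Pool.Agent.Helper53.CTR

open Pool.Agent.Helper65.LinSpace (Ctx LS)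

theorem blocks : Blocks := @Pool.Agent.Helper66.CTR.gRUN @Pool.Agent.Helper44.TE.gCHS

theorem elem : Elem := @Pool.Agent.Helper51.CTR.gELE @blocks

theorem algOK : AlgOK := algOK_of @blocks @elem @Pool.Agent.Helper24.CTR.gKB @Pool.Agent.Helper78.CTR.gKX @Pool.Agent.Helper64.CTR.gKC @Pool.Agent.Helper51.CTR.gVX

theorem ok6 : ∀ b W : ℕ, 1 ≤ b → 2 ^ (3 * b) ≤ W → OK6 (gadC b W) := fun b W h1 h2 =>
  (@Pool.Agent.Helper36.CTR.gEOK @Pool.Agent.Helper77.TE.gCO @Pool.Agent.Helper83.TE.gCL @Pool.Agent.Helper30.TE.gCD @Pool.Agent.Helper59.TE.gCE @Pool.Agent.Helper87.TE.gCSD @Pool.Agent.Helper53.CTR.gSHN @Pool.Agent.Helper38.CTR.gGA6 @Pool.Agent.Helper38.CTR.gGC6 b W h1 h2).1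

theorem stepOK : StepOK :=
  @Pool.Agent.Helper90.CTR.gSTP @Pool.Agent.Helper31.CTR.gPB @Pool.Agent.Helper15.CTR.gWFD @Pool.Agent.Helper53.CTR.gDES ok6 (@Pool.Agent.Helper67.CTR.gDI @Pool.Agent.Helper59.CTR.gDST @Pool.Agent.Helper53.CTR.gEFF @Pool.Agent.Helper9.CTR.gDBD @Pool.Agent.Helper15.CTR.gWFD @Pool.Agent.Helper53.CTR.gDES)
    (@Pool.Agent.Helper93.CTR.gEE @Pool.Agent.Helper13.TE.gCT @Pool.Agent.Helper53.CTR.gSHN @Pool.Agent.Helper57.CTR.gEC @Pool.Agent.Helper16.CTR.gSET @Pool.Agent.Helper31.CTR.gPB)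

theorem accOK : AccOK := @Pool.Agent.Helper53.CTR.gACC @Pool.Agent.Helper31.CTR.gPB @algOK ok6

theorem invStep : ∀ (ok : ℕ → ℕ → ℕ → ℕ → ℕ) (w : List Bool) (x : Sta) (γ : ℕ), γ < 2 →
    Inv ok w x → Inv ok w ((machM ok).nx w x γ) := by
  intro ok w x γ hγ hx
  by_cases h : x.mo = 6
  · exact @Pool.Agent.Helper72.CTR.gFI6 @Pool.Agent.Helper31.CTR.gPB stepOK accOK ok w x γ hγ hx h
  · exact @Pool.Agent.Helper12.CTR.gFI0 ok w x γ hγ hx h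

theorem main_space : ∀ C : ℕ, CallTree {x | x.2.1 * x.2.2.1 * Nat.log 2 x.2.2.1 + x.1 * x.2.2.2 ≤
    C * (x.1 * x.2.1)} ∈ NSPACE (fun n => Real.log n) :=
  @Pool.Agent.Helper31.CTR.gFIN (@Pool.Agent.Helper53.CTR.gCOM @Pool.Agent.Helper84.TE.gXPR @Pool.Agent.Helper16.TE.gXBODY @Pool.Agent.Helper1.TE.round @Pool.Agent.Helper57.TE.gDT @Pool.Agent.Helper54.TE.gT2A)
    (@Pool.Agent.Helper66.CTR.gLNX @Pool.Agent.Helper12.TE.gLCF @Pool.Agent.Helper66.CTR.gLN @Pool.Agent.Helper27.TE.gLSD @Pool.Agent.Helper53.TE.gLCT @Pool.Agent.Helper57.CTR.gLSUB @Pool.Agent.Helper78.CTR.gLBG)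
    (@Pool.Agent.Helper31.CTR.gFCS accOK @Pool.Agent.Helper67.CTR.gFC0 (@Pool.Agent.Helper98.CTR.gFC1 @Pool.Agent.Helper31.CTR.gPB stepOK) invStep)
    (@Pool.Agent.Helper63.CTR.gFB @Pool.Agent.Helper31.CTR.gPB @Pool.Agent.Helper15.CTR.gWFD ok6 (@Pool.Agent.Helper67.CTR.gDI @Pool.Agent.Helper59.CTR.gDST @Pool.Agent.Helper53.CTR.gEFF @Pool.Agent.Helper9.CTR.gDBD @Pool.Agent.Helper15.CTR.gWFD @Pool.Agent.Helper53.CTR.gDES)) @Pool.Agent.Helper24.CTR.gLG @Pool.Agent.Helper36.CTR.gAS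

end Pool.Agent.Helper53.CTR
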