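import Pool.Agent.Helper1.TE.Defs

/-!
# Call trees in nondeterministic logarithmic space: definitions used in the statement
-/

namespace Pool.Agent.Helper53.CTR

open Pool.Agent.Helper1.TE (NTM word)

/-- Nondeterministic space `O(s)`: the languages accepted by nondeterministic machines (as in
`Pool.Agent.Helper1.TE`) which use space `O(s)` in all computations on all inputs. -/
def NSPACE (s : ℕ → ℝ) : Set (Set (List Bool)) :=
  {L | ∃ (k : ℕ) (M : NTM k) (c : ℝ), ∀ w : List Bool,
    (w ∈ L ↔ M.Accepts w) ∧ M.Within w (c * (s w.length + 1))}

/-- A binary recursion of depth `u` with arguments: the node `v` with the argument `x` calls its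
left child `2 v` with the argument `x`, and then returns the result of its right child `2 v + 1`
with the argument `r v x y`, where `y` is the result of the left child. `bot w y` is the result of a
node `w` at the bottom with the argument `y`. -/
def seg (r : ℕ → ℕ → ℕ → ℕ) (bot : ℕ → ℕ → ℕ) : ℕ → ℕ → ℕ → ℕ
  | 0, v, x => bot v x
  | u + 1, v, x => seg r bot u (2 * v + 1) (r v x (seg r bot u (2 * v) x))

/-- A recursion of `g` blocks: each block is a binary recursion of depth `q`; a node `w` at the
bottom of a block with the argument `y` calls its only child `2 w`, the root of the next block, with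
the last `c` bits of `y` as the argument, and returns `r w y z`, where `z` is the result of the
child. The leaf `v` with the argument `x` has the result `r v x 0`. -/
def blk (r : ℕ → ℕ → ℕ → ℕ) (q c : ℕ) : ℕ → ℕ → ℕ → ℕ
  | 0, v, x => r v x 0
  | g + 1, v, x => seg r (fun w y => r w y (blk r q c g (2 * w) (y % 2 ^ c))) q v x

/-- The table of the node `j` in the word `v`: the tables have `4 ^ b` entries of `b` bits, the entry
for `x, y` is at the place `2 ^ b x + y`. Missing letters are read as zeros. -/
def tabV (b : ℕ) (v : List Bool) (j x y : ℕ) : ℕ := word v ((j * 4 ^ b + (2 ^ b * x + y)) * b) b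

/-- The result of the root (node `1`) with the argument `0`. -/
def rootV (h q b c : ℕ) (v : List Bool) : ℕ := blk (tabV b v) q c h 1 0

/-- The call tree problem for the parameters `(h, q, b, c)` in `D`: words
`1^h 0 1^q 0 1^b 0 1^c 0 v` of length more than `2 ^ (h q)` with `h, q, b ≥ 1` and `c ≤ b`, such that
the recursion of `h` blocks of depth `q` with arguments and results of `b` bits (`c` bits at the
roots of the blocks), and with the tables in `v`, returns `1`. -/
def CallTree (D : Set (ℕ × ℕ × ℕ × ℕ)) : Set (List Bool) :=
  {w | ∃ (h q b c : ℕ) (v : List Bool), 1 ≤ h ∧ 1 ≤ q ∧ 1 ≤ b ∧ c ≤ b ∧ (h, q, b, c) ∈ D ∧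
    2 ^ (h * q) < w.length ∧ rootV h q b c v = 1 ∧
    w = List.replicate h true ++ false :: (List.replicate q true ++ false ::
      (List.replicate b true ++ false :: (List.replicate c true ++ false :: v)))}

end Pool.Agent.Helper53.CTR
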